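import Mathlib

/-!
A sharp inequality for nonnegative functions on the square lattice.
-/

set_option autoImplicit false

namespace Pool.Agent.X96.LT

theorem fin_ineq {o0 o1 o2 o3 o4 q1 q2 q3 q4 M : ℝ} (h0 : 0 ≤ o0) (h1 : 0 ≤ o1) (h2 : 0 ≤ o2)
    (h3 : 0 ≤ o3) (h4 : 0 ≤ o4) (k1 : 0 ≤ q1) (k2 : 0 ≤ q2) (k3 : 0 ≤ q3) (k4 : 0 ≤ q4)
    (hM : o0 + o1 + o2 + o3 + o4 + q1 + q2 + q3 + q4 ≤ M) :
    max (o0 + o1 + o2 + q1 - M / 2) 0 ^ 2 + max (o0 + o3 + o4 + q2 - M / 2) 0 ^ 2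
      + max (o0 + o1 + o3 + q3 - M / 2) 0 ^ 2 + max (o0 + o2 + o4 + q4 - M / 2) 0 ^ 2
      ≤ o0 ^ 2 + o1 ^ 2 + o2 ^ 2 + o3 ^ 2 + o4 ^ 2 + q1 ^ 2 + q2 ^ 2 + q3 ^ 2 + q4 ^ 2 := by
  have hmax : ∀ t : ℝ, max t 0 ^ 2 = max t 0 * t := by
    intro t
    rcases le_total t 0 with h | h
    · rw [max_eq_right h]; ring
    · rw [max_eq_left h]; ring
  have e1 := hmax (o0 + o1 + o2 + q1 - M / 2)
  have e2 := hmax (o0 + o3 + o4 + q2 - M / 2)
  have e3 := hmax (o0 + o1 + o3 + q3 - M / 2)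
  have e4 := hmax (o0 + o2 + o4 + q4 - M / 2)
  set a1 := max (o0 + o1 + o2 + q1 - M / 2) 0 with ha1
  set a2 := max (o0 + o3 + o4 + q2 - M / 2) 0 with ha2
  set a3 := max (o0 + o1 + o3 + q3 - M / 2) 0 with ha3
  set a4 := max (o0 + o2 + o4 + q4 - M / 2) 0 with ha4
  have p1 : 0 ≤ a1 := le_max_right _ _
  have p2 : 0 ≤ a2 := le_max_right _ _
  have p3 : 0 ≤ a3 := le_max_right _ _
  have p4 : 0 ≤ a4 := le_max_right _ _
  clear_value a1 a2 a3 a4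
  have hMA : (o0 + o1 + o2 + o3 + o4 + q1 + q2 + q3 + q4) * (a1 + a2 + a3 + a4)
      ≤ M * (a1 + a2 + a3 + a4) := mul_le_mul_of_nonneg_right hM (by linarith)
  -- the pairs
  have f0 : o0 * ((a1 + a2 + a3 + a4) / 2) ≤ o0 ^ 2 / 2 + ((a1 + a2 + a3 + a4) / 2) ^ 2 / 2 := by
    nlinarith [sq_nonneg (o0 - (a1 + a2 + a3 + a4) / 2)]
  have f1 : (o1 - o4) * ((a1 + a3 - a2 - a4) / 2)
      ≤ (o1 ^ 2 + o4 ^ 2) / 2 + ((a1 + a3 - a2 - a4) / 2) ^ 2 / 2 := by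
    nlinarith [sq_nonneg (o1 - o4 - (a1 + a3 - a2 - a4) / 2), mul_nonneg h1 h4]
  have f2 : (o2 - o3) * ((a1 + a4 - a2 - a3) / 2)
      ≤ (o2 ^ 2 + o3 ^ 2) / 2 + ((a1 + a4 - a2 - a3) / 2) ^ 2 / 2 := by
    nlinarith [sq_nonneg (o2 - o3 - (a1 + a4 - a2 - a3) / 2), mul_nonneg h2 h3]
  have f3 : q1 * ((a1 - a2 - a3 - a4) / 2) + q2 * ((a2 - a1 - a3 - a4) / 2)
      + q3 * ((a3 - a1 - a2 - a4) / 2) + q4 * ((a4 - a1 - a2 - a3) / 2)
      ≤ (q1 ^ 2 + q2 ^ 2 + q3 ^ 2 + q4 ^ 2) / 2 + ((a1 + a2 - a3 - a4) / 2) ^ 2 / 2 := by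
    have g : ∀ q c : ℝ, q * c ≤ q ^ 2 / 2 + c ^ 2 / 2 := fun q c => by nlinarith [sq_nonneg (q - c)]
    have s1 := sq_nonneg q1
    have s2 := sq_nonneg q2
    have s3 := sq_nonneg q3
    have s4 := sq_nonneg q4
    have sR := sq_nonneg ((a1 + a2 - a3 - a4) / 2)
    have n : ∀ q c : ℝ, 0 ≤ q → c ≤ 0 → q * c ≤ 0 := fun q c hq hc =>
      mul_nonpos_of_nonneg_of_nonpos hq hc
    by_cases c1 : 0 < (a1 - a2 - a3 - a4) / 2
    · have w1 := g q1 ((a1 - a2 - a3 - a4) / 2)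
      have w2 := n q2 ((a2 - a1 - a3 - a4) / 2) k2 (by linarith)
      have w3 := n q3 ((a3 - a1 - a2 - a4) / 2) k3 (by linarith)
      have w4 := n q4 ((a4 - a1 - a2 - a3) / 2) k4 (by linarith)
      have w5 : ((a1 - a2 - a3 - a4) / 2) ^ 2 ≤ ((a1 + a2 - a3 - a4) / 2) ^ 2 :=
        pow_le_pow_left₀ c1.le (by linarith) 2
      linarith
    · have w1 := n q1 ((a1 - a2 - a3 - a4) / 2) k1 (not_lt.mp c1)
      by_cases c2 : 0 < (a2 - a1 - a3 - a4) / 2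
      · have w2 := g q2 ((a2 - a1 - a3 - a4) / 2)
        have w3 := n q3 ((a3 - a1 - a2 - a4) / 2) k3 (by linarith)
        have w4 := n q4 ((a4 - a1 - a2 - a3) / 2) k4 (by linarith)
        have w5 : ((a2 - a1 - a3 - a4) / 2) ^ 2 ≤ ((a1 + a2 - a3 - a4) / 2) ^ 2 :=
          pow_le_pow_left₀ c2.le (by linarith) 2
        linarith
      · have w2 := n q2 ((a2 - a1 - a3 - a4) / 2) k2 (not_lt.mp c2)
        by_cases c3 : 0 < (a3 - a1 - a2 - a4) / 2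
        · have w3 := g q3 ((a3 - a1 - a2 - a4) / 2)
          have w4 := n q4 ((a4 - a1 - a2 - a3) / 2) k4 (by linarith)
          have w5 : ((a3 - a1 - a2 - a4) / 2) ^ 2 ≤ ((a3 + a4 - a1 - a2) / 2) ^ 2 :=
            pow_le_pow_left₀ c3.le (by linarith) 2
          have w6 : ((a3 + a4 - a1 - a2) / 2) ^ 2 = ((a1 + a2 - a3 - a4) / 2) ^ 2 := by ring
          linarith
        · have w3 := n q3 ((a3 - a1 - a2 - a4) / 2) k3 (not_lt.mp c3)
          by_cases c4 : 0 < (a4 - a1 - a2 - a3) / 2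
          · have w4 := g q4 ((a4 - a1 - a2 - a3) / 2)
            have w5 : ((a4 - a1 - a2 - a3) / 2) ^ 2 ≤ ((a3 + a4 - a1 - a2) / 2) ^ 2 :=
              pow_le_pow_left₀ c4.le (by linarith) 2
            have w6 : ((a3 + a4 - a1 - a2) / 2) ^ 2 = ((a1 + a2 - a3 - a4) / 2) ^ 2 := by ring
            linarith
          · have w4 := n q4 ((a4 - a1 - a2 - a3) / 2) k4 (not_lt.mp c4)
            linarith
  -- the sum
  have key : a1 ^ 2 + a2 ^ 2 + a3 ^ 2 + a4 ^ 2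
      ≤ o0 * ((a1 + a2 + a3 + a4) / 2) + (o1 - o4) * ((a1 + a3 - a2 - a4) / 2)
        + (o2 - o3) * ((a1 + a4 - a2 - a3) / 2)
        + (q1 * ((a1 - a2 - a3 - a4) / 2) + q2 * ((a2 - a1 - a3 - a4) / 2)
      + q3 * ((a3 - a1 - a2 - a4) / 2) + q4 * ((a4 - a1 - a2 - a3) / 2)) := by
    rw [e1, e2, e3, e4]
    nlinarith [hMA]
  have id : ((a1 + a2 + a3 + a4) / 2) ^ 2 + ((a1 + a3 - a2 - a4) / 2) ^ 2
      + ((a1 + a4 - a2 - a3) / 2) ^ 2 + ((a1 + a2 - a3 - a4) / 2) ^ 2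
      = a1 ^ 2 + a2 ^ 2 + a3 ^ 2 + a4 ^ 2 := by ring
  linarith

/-! ### the lattice -/

def D4 : Finset (ℤ × ℤ) := {(1, 0), (-1, 0), (0, 1), (0, -1)}

def D9 : Finset (ℤ × ℤ) :=
  {(0, 0), (1, 1), (1, -1), (-1, 1), (-1, -1), (2, 0), (-2, 0), (0, 2), (0, -2)}

def nb (x : ℤ × ℤ) : Finset (ℤ × ℤ) := D4.map (addLeftEmbedding x)

def nb9 (x : ℤ × ℤ) : Finset (ℤ × ℤ) := D9.map (addLeftEmbedding x)

def hh (g : ℤ × ℤ → ℝ) (x : ℤ × ℤ) : ℝ :=
  g (x + (1, 0)) + g (x + (-1, 0)) + g (x + (0, 1)) + g (x + (0, -1))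

theorem sum_nb (g : ℤ × ℤ → ℝ) (x : ℤ × ℤ) : ∑ y ∈ nb x, g y = hh g x := by
  unfold nb D4 hh
  rw [Finset.sum_map, Finset.sum_insert (by decide), Finset.sum_insert (by decide),
    Finset.sum_insert (by decide), Finset.sum_singleton]
  simp only [addLeftEmbedding_apply]
  ring

theorem sum_nb9 (g : ℤ × ℤ → ℝ) (x : ℤ × ℤ) : ∑ y ∈ nb9 x, g y
    = g (x + (0, 0)) + g (x + (1, 1)) + g (x + (1, -1)) + g (x + (-1, 1)) + g (x + (-1, -1))
      + g (x + (2, 0)) + g (x + (-2, 0)) + g (x + (0, 2)) + g (x + (0, -2)) := by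
  unfold nb9 D9
  rw [Finset.sum_map, Finset.sum_insert (by decide), Finset.sum_insert (by decide),
    Finset.sum_insert (by decide), Finset.sum_insert (by decide), Finset.sum_insert (by decide),
    Finset.sum_insert (by decide), Finset.sum_insert (by decide), Finset.sum_insert (by decide),
    Finset.sum_singleton]
  simp only [addLeftEmbedding_apply]
  ring

theorem mem_nb {x y : ℤ × ℤ} : y ∈ nb x ↔
    (y.1 = x.1 + 1 ∧ y.2 = x.2) ∨ (y.1 = x.1 - 1 ∧ y.2 = x.2) ∨ (y.1 = x.1 ∧ y.2 = x.2 + 1) ∨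
      (y.1 = x.1 ∧ y.2 = x.2 - 1) := by
  obtain ⟨x1, x2⟩ := x
  obtain ⟨y1, y2⟩ := y
  simp only [nb, D4, Finset.mem_map, Finset.mem_insert, Finset.mem_singleton,
    addLeftEmbedding_apply, Prod.exists, Prod.mk.injEq, Prod.mk_add_mk]
  constructor
  · rintro ⟨a, b, h, h1, h2⟩
    omega
  · rintro (h | h | h | h)
    · exact ⟨1, 0, by omega, by omega, by omega⟩
    · exact ⟨-1, 0, by omega, by omega, by omega⟩
    · exact ⟨0, 1, by omega, by omega, by omega⟩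
    · exact ⟨0, -1, by omega, by omega, by omega⟩

theorem par_nb {x y : ℤ × ℤ} (h : y ∈ nb x) : (y.1 + y.2) % 2 ≠ (x.1 + x.2) % 2 := by
  rw [mem_nb] at h
  omega

theorem par_nb9 {x y : ℤ × ℤ} (h : y ∈ nb9 x) : (y.1 + y.2) % 2 = (x.1 + x.2) % 2 := by
  obtain ⟨x1, x2⟩ := x
  obtain ⟨y1, y2⟩ := y
  simp only [nb9, D9, Finset.mem_map, Finset.mem_insert, Finset.mem_singleton,
    addLeftEmbedding_apply, Prod.exists, Prod.mk.injEq, Prod.mk_add_mk] at h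
  obtain ⟨a, b, h, h1, h2⟩ := h
  show (y1 + y2) % 2 = (x1 + x2) % 2
  omega

/-- sets of one parity with pairwise common neighbours are contained in a neighbourhood -/
theorem star {X : Finset (ℤ × ℤ)} {ε : ℤ} (hX : X.Nonempty)
    (hp : ∀ x ∈ X, (x.1 + x.2) % 2 = ε)
    (hh : ∀ x ∈ X, ∀ y ∈ X, (nb x ∩ nb y).Nonempty) :
    ∃ m : ℤ × ℤ, (m.1 + m.2) % 2 ≠ ε ∧ X ⊆ nb m := by
  have hpair : ∀ x ∈ X, ∀ y ∈ X, x.1 + x.2 ≤ y.1 + y.2 + 2 ∧ x.1 - x.2 ≤ y.1 - y.2 + 2 := by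
    intro x hx y hy
    obtain ⟨z, hz⟩ := hh x hx y hy
    rw [Finset.mem_inter, mem_nb, mem_nb] at hz
    omega
  obtain ⟨a, ha, hamin⟩ := X.exists_min_image (fun x => x.1 + x.2) hX
  obtain ⟨b, hb, hbmin⟩ := X.exists_min_image (fun x => x.1 - x.2) hX
  refine ⟨((a.1 + a.2 + (b.1 - b.2)) / 2 + 1, (a.1 + a.2 - (b.1 - b.2)) / 2), ?_, ?_⟩
  · have h1 := hp a ha
    have h2 := hp b hb
    show ((a.1 + a.2 + (b.1 - b.2)) / 2 + 1 + (a.1 + a.2 - (b.1 - b.2)) / 2) % 2 ≠ ε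
    omega
  · intro x hx
    have h1 := hp a ha
    have h2 := hp b hb
    have h3 := hp x hx
    have h4 := hamin x hx
    have h5 := hbmin x hx
    have h6 := (hpair x hx a ha).1
    have h7 := (hpair x hx b hb).2
    rw [mem_nb]
    simp only at h4 h5 ⊢
    omega

variable {S : Finset (ℤ × ℤ)} {g : ℤ × ℤ → ℝ} {ε : ℤ}

/-- sites of the parity `ε` in `S` -/
def ev (S : Finset (ℤ × ℤ)) (ε : ℤ) : Finset (ℤ × ℤ) := S.filter fun x => (x.1 + x.2) % 2 = ε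

/-- sites of the other parity in `S` -/
def od (S : Finset (ℤ × ℤ)) (ε : ℤ) : Finset (ℤ × ℤ) := S.filter fun x => (x.1 + x.2) % 2 ≠ ε

theorem sum_le_od (g0 : ∀ x, 0 ≤ g x) (gS : ∀ x, x ∉ S → g x = 0) {U : Finset (ℤ × ℤ)}
    (hU : ∀ y ∈ U, (y.1 + y.2) % 2 ≠ ε) : ∑ y ∈ U, g y ≤ ∑ y ∈ od S ε, g y := by
  have h1 : ∑ y ∈ U, g y = ∑ y ∈ U.filter (fun y => y ∈ S), g y := by
    rw [Finset.sum_filter]
    refine Finset.sum_congr rfl fun y _ => ?_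
    by_cases h : y ∈ S
    · rw [if_pos h]
    · rw [if_neg h, gS y h]
  rw [h1]
  refine Finset.sum_le_sum_of_subset_of_nonneg ?_ fun y _ _ => g0 y
  intro y hy
  rw [Finset.mem_filter] at hy
  exact Finset.mem_filter.mpr ⟨hy.2, hU y hy.1⟩

/-- the positive parts of the excess -/
theorem excess (g0 : ∀ x, 0 ≤ g x) (gS : ∀ x, x ∉ S → g x = 0) :
    ∑ x ∈ ev S ε, max (hh g x - (∑ y ∈ od S ε, g y) / 2) 0 ^ 2 ≤ ∑ y ∈ od S ε, g y ^ 2 := by
  set M := ∑ y ∈ od S ε, g y with hM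
  have hR : 0 ≤ ∑ y ∈ od S ε, g y ^ 2 := Finset.sum_nonneg fun y _ => sq_nonneg _
  set X := (ev S ε).filter fun x => M / 2 < hh g x with hXd
  have h1 : ∑ x ∈ ev S ε, max (hh g x - M / 2) 0 ^ 2 = ∑ x ∈ X, max (hh g x - M / 2) 0 ^ 2 := by
    rw [hXd, Finset.sum_filter]
    refine Finset.sum_congr rfl fun x _ => ?_
    by_cases h : M / 2 < hh g x
    · rw [if_pos h]
    · rw [if_neg h, max_eq_right (by linarith)]
      norm_num
  rw [h1]
  rcases X.eq_empty_or_nonempty with he | hne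
  · rw [he, Finset.sum_empty]
    exact hR
  · have hpX : ∀ x ∈ X, (x.1 + x.2) % 2 = ε := fun x hx =>
      (Finset.mem_filter.mp (Finset.mem_filter.mp hx).1).2
    obtain ⟨m, hm, hXm⟩ := star hne hpX (by
      intro x hx y hy
      by_contra hcon
      rw [Finset.not_nonempty_iff_eq_empty] at hcon
      have hd : Disjoint (nb x) (nb y) := Finset.disjoint_iff_inter_eq_empty.mpr hcon
      have k1 : ∑ z ∈ nb x ∪ nb y, g z ≤ M := by
        refine sum_le_od g0 gS ?_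
        intro z hz
        rcases Finset.mem_union.mp hz with h | h
        · have := par_nb h
          rw [hpX x hx] at this
          exact this
        · have := par_nb h
          rw [hpX y hy] at this
          exact this
      rw [Finset.sum_union hd, sum_nb, sum_nb] at k1
      have k2 := (Finset.mem_filter.mp hx).2
      have k3 := (Finset.mem_filter.mp hy).2
      linarith)
    have h2 : ∑ x ∈ X, max (hh g x - M / 2) 0 ^ 2 ≤ ∑ x ∈ nb m, max (hh g x - M / 2) 0 ^ 2 :=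
      Finset.sum_le_sum_of_subset_of_nonneg hXm fun x _ _ => sq_nonneg _
    refine h2.trans ?_
    rw [sum_nb]
    have h9 : ∀ y ∈ nb9 m, (y.1 + y.2) % 2 ≠ ε := by
      intro y hy
      rw [par_nb9 hy]
      exact hm
    have k1 : ∑ y ∈ nb9 m, g y ≤ M := sum_le_od g0 gS h9
    have k2 : ∑ y ∈ nb9 m, g y ^ 2 ≤ ∑ y ∈ od S ε, g y ^ 2 :=
      sum_le_od (g := fun y => g y ^ 2) (fun y => sq_nonneg _)
        (fun y hy => by simp [gS y hy]) h9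
    refine le_trans ?_ k2
    rw [sum_nb9] at k1 ⊢
    have e1 : hh g (m + (1, 0)) = g (m + (0, 0)) + g (m + (1, 1)) + g (m + (1, -1))
        + g (m + (2, 0)) := by
      unfold hh
      simp only [add_assoc, Prod.mk_add_mk]
      norm_num
      ring
    have e2 : hh g (m + (-1, 0)) = g (m + (0, 0)) + g (m + (-1, 1)) + g (m + (-1, -1))
        + g (m + (-2, 0)) := by
      unfold hh
      simp only [add_assoc, Prod.mk_add_mk]
      norm_num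
      ring
    have e3 : hh g (m + (0, 1)) = g (m + (0, 0)) + g (m + (1, 1)) + g (m + (-1, 1))
        + g (m + (0, 2)) := by
      unfold hh
      simp only [add_assoc, Prod.mk_add_mk]
      norm_num
      ring
    have e4 : hh g (m + (0, -1)) = g (m + (0, 0)) + g (m + (1, -1)) + g (m + (-1, -1))
        + g (m + (0, -2)) := by
      unfold hh
      simp only [add_assoc, Prod.mk_add_mk]
      norm_num
      ring
    show max (hh g (m + (1, 0)) - M / 2) 0 ^ 2 + max (hh g (m + (-1, 0)) - M / 2) 0 ^ 2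
      + max (hh g (m + (0, 1)) - M / 2) 0 ^ 2 + max (hh g (m + (0, -1)) - M / 2) 0 ^ 2 ≤ _
    rw [e1, e2, e3, e4]
    exact fin_ineq (g0 _) (g0 _) (g0 _) (g0 _) (g0 _) (g0 _) (g0 _) (g0 _) (g0 _) k1

theorem half (g0 : ∀ x, 0 ≤ g x) (gS : ∀ x, x ∉ S → g x = 0) (ε : ℤ) :
    2 * ∑ x ∈ ev S ε, g x * hh g x ≤ (∑ x ∈ ev S ε, g x) * (∑ x ∈ od S ε, g x)
      + ∑ x ∈ ev S ε, g x ^ 2 + ∑ x ∈ od S ε, g x ^ 2 := by
  have h1 := excess (ε := ε) g0 gS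
  set M := ∑ y ∈ od S ε, g y with hM
  have h2 : ∑ x ∈ ev S ε, 2 * (g x * hh g x)
      ≤ ∑ x ∈ ev S ε, (g x * M + g x ^ 2 + max (hh g x - M / 2) 0 ^ 2) := by
    refine Finset.sum_le_sum fun x _ => ?_
    have k1 : hh g x - M / 2 ≤ max (hh g x - M / 2) 0 := le_max_left _ _
    nlinarith [mul_le_mul_of_nonneg_left k1 (g0 x), sq_nonneg (g x - max (hh g x - M / 2) 0)]
  rw [← Finset.mul_sum, Finset.sum_add_distrib, Finset.sum_add_distrib, ← Finset.sum_mul] at h2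
  linarith

/-- **the inequality** -/
theorem ineq (g0 : ∀ x, 0 ≤ g x) (gS : ∀ x, x ∉ S → g x = 0) :
    ∑ x ∈ S, g x * hh g x ≤ (∑ x ∈ S.filter (fun x => (x.1 + x.2) % 2 = 0), g x)
      * (∑ x ∈ S.filter (fun x => (x.1 + x.2) % 2 = 1), g x) + ∑ x ∈ S, g x ^ 2 := by
  have a0 := half g0 gS 0
  have a1 := half g0 gS 1
  have e0 : ev S 1 = od S 0 := by
    ext x
    simp only [ev, od, Finset.mem_filter]
    constructor
    · rintro ⟨h1, h2⟩; exact ⟨h1, by omega⟩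
    · rintro ⟨h1, h2⟩; exact ⟨h1, by omega⟩
  have e1 : od S 1 = ev S 0 := by
    ext x
    simp only [ev, od, Finset.mem_filter]
    constructor
    · rintro ⟨h1, h2⟩; exact ⟨h1, by omega⟩
    · rintro ⟨h1, h2⟩; exact ⟨h1, by omega⟩
  rw [e1] at a1
  rw [← e0] at a0
  have s : ∀ F : ℤ × ℤ → ℝ, ∑ x ∈ S, F x = ∑ x ∈ ev S 0, F x + ∑ x ∈ ev S 1, F x := by
    intro F
    rw [e0]
    exact (Finset.sum_filter_add_sum_filter_not S _ F).symm
  rw [s, s (fun x => g x ^ 2)]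
  show _ ≤ (∑ x ∈ ev S 0, g x) * (∑ x ∈ ev S 1, g x) + _
  nlinarith

end Pool.Agent.X96.LT
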